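import Pool.Agent.Helper7.FS.Spa
import Pool.Agent.Helper1.TP.Goals

/-!
# The goal S_SPA (MP_75608d_al, final step)
-/

set_option autoImplicit false

namespace Pool.Agent.Helper7.FS

open Finset

open Classical in
theorem s_spa : Pool.Agent.Helper1.TP.S_SPA := by
  intro q n N s b μ ρ0 g x y hx hμ hμ1 hb1 hb hρ hρ1
  have hsn : s ≤ n := by
    have := Fintype.card_le_of_injective x hx
    simpa using this
  have hρ0 : 0 ≤ ρ0 := by
    have e : Fin b ↪ Fin n := (Fin.castLEEmb (by omega) : Fin b ↪ Fin n)
    refine le_trans ?_ (hρ e e)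
    apply sum_nonneg
    intro A _
    apply sum_nonneg
    intro B _
    split_ifs
    · exact mul_nonneg (hμ A) (hμ B)
    · exact le_rfl
  refine le_trans (le_of_eq ?_) (spa' μ hμ hμ1 (b := b) (by omega) hρ0 hρ1 (fun c c' => ?_) y
    (Pool.Agent.Helper1.TP.extG g) x hx N (N1 := Pool.Agent.Helper1.TP.nl
      (Pool.Agent.Helper1.TP.extG g) N) le_rfl |>.trans ?_)
  · apply sum_congr rfl
    intro A _
    apply sum_congr rfl
    intro B _
    rfl
  · refine le_trans (le_of_eq ?_) (hρ c c')
    apply sum_congr rfl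
    intro A _
    apply sum_congr rfl
    intro B _
    exact if_congr Iff.rfl rfl rfl
  · apply mul_le_mul_of_nonneg_left _ (by positivity)
    exact pow_le_pow_of_le_one (by positivity) hρ1 (by omega)

end Pool.Agent.Helper7.FS
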