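import Mathlib

/-!
# Expurgation (MP_75608d_al, middle levels, route of helper38)

If for all `y` at most one of the elements `τ_a y` is bad, outside a small set of `z`, then few `y`
are bad.  Also: many even involutions with disjoint supports of the same size.
-/

set_option autoImplicit false

open Equiv Finset

namespace Pool.Agent.Helper7.FS

open scoped Classical in
/-- Expurgation: if for all `y` and `a ≠ b` the proportion of `z` for which `τ_a y` and `τ_b y` are
both bad is at most `e`, then the proportion of bad pairs is at most `1 / m + m e`. -/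
theorem expu {Z G : Type} [Fintype Z] [Group G] [Fintype G] (Bad : Z → G → Prop) {m : ℕ}
    (hm : 0 < m) (τ : Fin m → G) (e : ℝ) (he : 0 ≤ e)
    (h : ∀ (y : G) (a b : Fin m), a ≠ b →
      (((univ.filter fun z : Z => Bad z (τ a * y) ∧ Bad z (τ b * y)).card : ℕ) : ℝ)
        ≤ e * Fintype.card Z) :
    (((univ.filter fun p : Z × G => Bad p.1 p.2).card : ℕ) : ℝ)
      ≤ (1 / m + m * e) * (Fintype.card Z * Fintype.card G) := by
  set B : ℝ := (((univ.filter fun p : Z × G => Bad p.1 p.2).card : ℕ) : ℝ) with hB
  set ind : Z → G → ℝ := fun z y => if Bad z y then 1 else 0 with hind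
  have hind0 : ∀ z y, 0 ≤ ind z y := fun z y => by
    simp only [hind]; split_ifs <;> norm_num
  have hind1 : ∀ z y, ind z y ≤ 1 := fun z y => by
    simp only [hind]; split_ifs <;> norm_num
  have hBs : B = ∑ z, ∑ y, ind z y := by
    rw [hB, Finset.card_filter]
    push_cast
    rw [Fintype.sum_prod_type]
  have hshift : ∀ a : Fin m, ∑ z, ∑ y, ind z (τ a * y) = B := by
    intro a
    rw [hBs]
    refine Finset.sum_congr rfl fun z _ => ?_
    exact Fintype.sum_equiv (Equiv.mulLeft (τ a)) _ _ (fun y => rfl)
  -- pointwise
  have hpt : ∀ z y, ∑ a, ind z (τ a * y) ≤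
      1 + ∑ a, ∑ b, (if a ≠ b then ind z (τ a * y) * ind z (τ b * y) else 0) := by
    intro z y
    have hnn : ∀ a b : Fin m,
        0 ≤ (if a ≠ b then ind z (τ a * y) * ind z (τ b * y) else 0) := by
      intro a b
      split_ifs
      · exact mul_nonneg (hind0 _ _) (hind0 _ _)
      · exact le_rfl
    by_cases hex : ∃ a, Bad z (τ a * y)
    · obtain ⟨a, ha⟩ := hex
      have h1 : ∑ b, (if a ≠ b then ind z (τ a * y) * ind z (τ b * y) else 0) ≤
          ∑ a, ∑ b, (if a ≠ b then ind z (τ a * y) * ind z (τ b * y) else 0) :=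
        Finset.single_le_sum (f := fun a => ∑ b, (if a ≠ b then
          ind z (τ a * y) * ind z (τ b * y) else 0))
          (fun a _ => Finset.sum_nonneg fun b _ => hnn a b) (mem_univ a)
      have h2 : ∑ b, ind z (τ b * y) ≤
          1 + ∑ b, (if a ≠ b then ind z (τ a * y) * ind z (τ b * y) else 0) := by
        have hia : ind z (τ a * y) = 1 := by simp only [hind, if_pos ha]
        rw [← Finset.add_sum_erase univ _ (mem_univ a), hia]
        have h3 : ∑ b ∈ univ.erase a, ind z (τ b * y) ≤
            ∑ b ∈ univ.erase a, (if a ≠ b then 1 * ind z (τ b * y) else 0) := by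
          refine Finset.sum_le_sum fun b hb => ?_
          rw [if_pos (Ne.symm (Finset.ne_of_mem_erase hb)), one_mul]
        have h4 : ∑ b ∈ univ.erase a, (if a ≠ b then 1 * ind z (τ b * y) else 0) ≤
            ∑ b, (if a ≠ b then 1 * ind z (τ b * y) else 0) := by
          refine Finset.sum_le_sum_of_subset_of_nonneg (Finset.erase_subset _ _) ?_
          intro b _ _
          have := hnn a b
          rwa [hia] at this
        linarith
      linarith
    · have h0 : ∀ a, ind z (τ a * y) = 0 := by
        intro a
        simp only [hind]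
        rw [if_neg]
        exact fun hb => hex ⟨a, hb⟩
      have h1 : 0 ≤ ∑ a, ∑ b, (if a ≠ b then ind z (τ a * y) * ind z (τ b * y) else 0) :=
        Finset.sum_nonneg fun a _ => Finset.sum_nonneg fun b _ => hnn a b
      rw [Finset.sum_eq_zero fun a _ => h0 a]
      linarith
  have hsum : (m : ℝ) * B ≤ Fintype.card Z * Fintype.card G +
      (m : ℝ) * m * (e * (Fintype.card Z * Fintype.card G)) := by
    have e1 : (m : ℝ) * B = ∑ z, ∑ y, ∑ a, ind z (τ a * y) := by
      have : ∑ a : Fin m, ∑ z, ∑ y, ind z (τ a * y) = (m : ℝ) * B := by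
        rw [Finset.sum_congr rfl fun a _ => hshift a]
        simp
      rw [← this, Finset.sum_comm]
      refine Finset.sum_congr rfl fun z _ => ?_
      rw [Finset.sum_comm]
    have e2 : ∑ z, ∑ y, ∑ a, ind z (τ a * y) ≤ ∑ z : Z, ∑ y : G,
        (1 + ∑ a, ∑ b, (if a ≠ b then ind z (τ a * y) * ind z (τ b * y) else 0)) :=
      Finset.sum_le_sum fun z _ => Finset.sum_le_sum fun y _ => hpt z y
    have e3 : ∑ z : Z, ∑ y : G,
        (1 + ∑ a, ∑ b, (if a ≠ b then ind z (τ a * y) * ind z (τ b * y) else 0)) =
        Fintype.card Z * Fintype.card G +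
          ∑ a : Fin m, ∑ b : Fin m, ∑ y : G, ∑ z : Z,
            (if a ≠ b then ind z (τ a * y) * ind z (τ b * y) else 0) := by
      simp only [Finset.sum_add_distrib]
      congr 1
      · simp
      · rw [Finset.sum_comm]
        have : ∀ y : G, ∑ z : Z, ∑ a, ∑ b, (if a ≠ b then
            ind z (τ a * y) * ind z (τ b * y) else 0) =
            ∑ a : Fin m, ∑ b : Fin m, ∑ z : Z, (if a ≠ b then
            ind z (τ a * y) * ind z (τ b * y) else 0) := by
          intro y
          rw [Finset.sum_comm]
          refine Finset.sum_congr rfl fun a _ => ?_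
          rw [Finset.sum_comm]
        rw [Finset.sum_congr rfl fun y _ => this y, Finset.sum_comm]
        refine Finset.sum_congr rfl fun a _ => ?_
        rw [Finset.sum_comm]
    have e5 : ∀ (a b : Fin m), ∑ y : G, ∑ z : Z,
        (if a ≠ b then ind z (τ a * y) * ind z (τ b * y) else 0) ≤
        e * (Fintype.card Z * Fintype.card G) := by
      intro a b
      by_cases hab : a = b
      · subst hab
        simp only [ne_eq, not_true_eq_false, if_false, Finset.sum_const_zero]
        positivity
      · have h1 : ∀ y : G, ∑ z : Z,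
            (if a ≠ b then ind z (τ a * y) * ind z (τ b * y) else 0) ≤ e * Fintype.card Z := by
          intro y
          refine le_trans (le_of_eq ?_) (h y a b hab)
          rw [Finset.card_filter]
          push_cast
          refine Finset.sum_congr rfl fun z _ => ?_
          rw [if_pos hab]
          simp only [hind]
          by_cases h1 : Bad z (τ a * y) <;> by_cases h2 : Bad z (τ b * y) <;> simp [h1, h2]
        calc ∑ y : G, ∑ z : Z, (if a ≠ b then ind z (τ a * y) * ind z (τ b * y) else 0)
            ≤ ∑ _y : G, e * Fintype.card Z := Finset.sum_le_sum fun y _ => h1 y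
          _ = e * (Fintype.card Z * Fintype.card G) := by
              rw [Finset.sum_const, nsmul_eq_mul, Finset.card_univ]; ring
    rw [e1]
    refine (e2.trans (le_of_eq e3)).trans ?_
    have : ∑ a : Fin m, ∑ b : Fin m, ∑ y : G, ∑ z : Z,
        (if a ≠ b then ind z (τ a * y) * ind z (τ b * y) else 0) ≤
        ∑ _a : Fin m, ∑ _b : Fin m, e * (Fintype.card Z * Fintype.card G) :=
      Finset.sum_le_sum fun a _ => Finset.sum_le_sum fun b _ => e5 a b
    simp only [Finset.sum_const, Finset.card_univ, Fintype.card_fin, nsmul_eq_mul] at this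
    linarith
  have hm' : (0 : ℝ) < m := by exact_mod_cast hm
  rw [← mul_le_mul_iff_right₀ hm']
  refine hsum.trans (le_of_eq ?_)
  field_simp

/-- Every set of `4 h` points is the support of an even involution. -/
theorem exists_invol {α : Type} [Fintype α] [DecidableEq α] (h : ℕ) :
    ∀ S : Finset α, S.card = 4 * h →
      ∃ τ : Perm α, Perm.sign τ = 1 ∧ τ * τ = 1 ∧ τ.support = S := by
  induction h with
  | zero =>
    intro S hS
    have : S = ∅ := by
      rw [← Finset.card_eq_zero]; omega
    exact ⟨1, by simp, by simp, by simp [this]⟩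
  | succ h ih =>
    intro S hS
    obtain ⟨T, hTS, hT⟩ := Finset.exists_subset_card_eq (show 4 ≤ S.card by omega)
    obtain ⟨a, b, c, d, hab, hac, had, hbc, hbd, hcd, hTe⟩ := Finset.card_eq_four.1 hT
    obtain ⟨τ, h1, h2, h3⟩ := ih (S \ T) (by rw [Finset.card_sdiff_of_subset hTS]; omega)
    set σ : Perm α := swap a b * swap c d with hσ
    have hd1 : Perm.Disjoint (swap a b) (swap c d) := by
      rw [Perm.disjoint_iff_disjoint_support, Perm.support_swap hab, Perm.support_swap hcd]
      rw [Finset.disjoint_left]
      intro x hx hx'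
      simp only [Finset.mem_insert, Finset.mem_singleton] at hx hx'
      rcases hx with rfl | rfl <;> rcases hx' with h | h <;> simp_all
    have hσs : σ.support = T := by
      rw [hσ, hd1.support_mul, Perm.support_swap hab, Perm.support_swap hcd, hTe]
      ext x
      simp only [Finset.mem_union, Finset.mem_insert, Finset.mem_singleton]
      tauto
    have hσσ : σ * σ = 1 := by
      have hc := hd1.commute
      rw [hσ]
      calc swap a b * swap c d * (swap a b * swap c d)
          = swap a b * (swap c d * swap a b) * swap c d := by group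
        _ = swap a b * (swap a b * swap c d) * swap c d := by rw [hc.eq]
        _ = (swap a b * swap a b) * (swap c d * swap c d) := by group
        _ = 1 := by rw [swap_mul_self, swap_mul_self, one_mul]
    have hdis : Perm.Disjoint σ τ := by
      rw [Perm.disjoint_iff_disjoint_support, hσs, h3]
      exact Finset.disjoint_sdiff
    refine ⟨σ * τ, ?_, ?_, ?_⟩
    · rw [Perm.sign_mul, h1, mul_one, hσ, Perm.sign_mul, Perm.sign_swap hab,
        Perm.sign_swap hcd]
      decide
    · have hc := hdis.commute
      calc σ * τ * (σ * τ) = σ * (τ * σ) * τ := by group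
        _ = σ * (σ * τ) * τ := by rw [hc.eq]
        _ = (σ * σ) * (τ * τ) := by group
        _ = 1 := by rw [hσσ, h2, one_mul]
    · rw [hdis.support_mul, hσs, h3]
      exact Finset.union_sdiff_of_subset hTS

/-- `m` even involutions with disjoint supports of `4 h` points. -/
theorem exists_blocks (n m h : ℕ) (hn : m * (4 * h) ≤ n) :
    ∃ τ : Fin m → alternatingGroup (Fin n),
      (∀ a, τ a * τ a = 1) ∧ (∀ a, ((τ a : Perm (Fin n)).support).card = 4 * h) ∧
      (∀ a b, a ≠ b →
        Disjoint (τ a : Perm (Fin n)).support (τ b : Perm (Fin n)).support) := by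
  set P : Fin m → Finset (Fin n) := fun a =>
    univ.filter fun i : Fin n => a.val * (4 * h) ≤ i.val ∧ i.val < (a.val + 1) * (4 * h) with hP
  have hcard : ∀ a, (P a).card = 4 * h := by
    intro a
    have h1 : (P a).card = (Finset.Ico (a.val * (4 * h)) ((a.val + 1) * (4 * h))).card := by
      refine Finset.card_bij (fun i _ => i.val) ?_ ?_ ?_
      · intro i hi
        rw [Finset.mem_Ico]
        exact (Finset.mem_filter.1 hi).2
      · intro i _ j _ hij
        exact Fin.ext hij
      · intro j hj
        rw [Finset.mem_Ico] at hj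
        have hjn : j < n := by
          have : (a.val + 1) * (4 * h) ≤ m * (4 * h) := Nat.mul_le_mul_right _ (by omega)
          omega
        exact ⟨⟨j, hjn⟩, Finset.mem_filter.2 ⟨mem_univ _, hj⟩, rfl⟩
    rw [h1, Nat.card_Ico]
    have : (a.val + 1) * (4 * h) = a.val * (4 * h) + 4 * h := by ring
    omega
  have hdis : ∀ a b, a ≠ b → Disjoint (P a) (P b) := by
    intro a b hab
    rw [Finset.disjoint_left]
    intro i hi hi'
    have h1 := (Finset.mem_filter.1 hi).2
    have h2 := (Finset.mem_filter.1 hi').2
    rcases Nat.lt_or_gt_of_ne (fun h => hab (Fin.ext h) : a.val ≠ b.val) with hlt | hlt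
    · have : (a.val + 1) * (4 * h) ≤ b.val * (4 * h) := Nat.mul_le_mul_right _ hlt
      omega
    · have : (b.val + 1) * (4 * h) ≤ a.val * (4 * h) := Nat.mul_le_mul_right _ hlt
      omega
  have hex : ∀ a, ∃ τ : alternatingGroup (Fin n), τ * τ = 1 ∧
      (τ : Perm (Fin n)).support = P a := by
    intro a
    obtain ⟨τ, h1, h2, h3⟩ := exists_invol h (P a) (hcard a)
    refine ⟨⟨τ, Perm.mem_alternatingGroup.2 h1⟩, ?_, h3⟩
    exact Subtype.ext h2
  choose τ h1 h2 using hex
  refine ⟨τ, h1, fun a => ?_, fun a b hab => ?_⟩
  · rw [h2, hcard]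
  · rw [h2, h2]
    exact hdis a b hab

end Pool.Agent.Helper7.FS
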