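import Pool.Agent.Helper38.FS.Goals
import Pool.Agent.Helper7.FS.Expu

/-!
# The goal S_EXP (MP_75608d_al, middle levels)
-/

set_option autoImplicit false

namespace Pool.Agent.Helper7.FS

open Finset Equiv Filter
open Pool.Agent.Helper3.AK (Alt TupleGap lazyLaw)
open Pool.Agent.Helper38.FS
open Classical

/-- numerics for large `n` -/
theorem num_exp : ∃ n₀ : ℕ, ∀ n, n₀ ≤ n → ∀ r : ℕ, Win 4000 0.09 n r →
    1 ≤ n ∧ 4000 * Real.log n ^ 2 ≤ (MM n r : ℝ) ∧ (MM n r : ℝ) ≤ (n : ℝ) ^ (0.1 : ℝ) ∧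
    ⌊(n : ℝ) ^ (0.8 : ℝ)⌋₊ * (4 * ⌈((n : ℝ) / r) * Real.log n⌉₊) ≤ n ∧
    1 ≤ (n : ℝ) ^ (0.8 : ℝ) ∧ (n : ℝ) ^ (0.8 : ℝ) ≤ n := by
  have h1 : ∀ᶠ n : ℕ in atTop, Real.log n ≤ (n : ℝ) ^ (0.005 : ℝ) := by
    have := isLittleO_log_rpow_atTop (r := 0.005) (by norm_num)
    have h := (this.bound (c := 1) (by norm_num)).natCast_atTop
    filter_upwards [h, eventually_ge_atTop 1] with n hn hn1
    have hn1' : (1 : ℝ) ≤ n := by exact_mod_cast hn1
    rw [Real.norm_of_nonneg (Real.log_nonneg hn1'), Real.norm_of_nonneg (by positivity)] at hn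
    linarith
  have h2 : ∀ᶠ n : ℕ in atTop, (16 : ℝ) ≤ (n : ℝ) ^ (0.005 : ℝ) :=
    ((tendsto_rpow_atTop (by norm_num : (0 : ℝ) < 0.005)).comp
      tendsto_natCast_atTop_atTop).eventually_ge_atTop 16
  obtain ⟨n₀, hn₀⟩ := eventually_atTop.1 (h1.and (h2.and (eventually_ge_atTop 3)))
  refine ⟨n₀, fun n hn r hr => ?_⟩
  obtain ⟨hl, h16, hn3⟩ := hn₀ n hn
  obtain ⟨hr1, hw1, hw2⟩ := hr
  have hnr : (3 : ℝ) ≤ n := by exact_mod_cast hn3
  have hn0 : (0 : ℝ) < n := by linarith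
  have hlog1 : 1 ≤ Real.log n := by
    rw [Real.le_log_iff_exp_le hn0]
    linarith [Real.exp_one_lt_d9]
  have hr0 : (0 : ℝ) < r := by exact_mod_cast hr1
  have hnr1 : 1 ≤ (n : ℝ) / r := by linarith
  obtain ⟨X, hX⟩ : ∃ X, X = (n : ℝ) / r * Real.log n := ⟨_, rfl⟩
  have hX1 : 1 ≤ X := by
    rw [hX]
    nlinarith
  have hXle : X ≤ (n : ℝ) ^ (0.095 : ℝ) := by
    rw [hX]
    calc (n : ℝ) / r * Real.log n ≤ (n : ℝ) ^ (0.09 : ℝ) * (n : ℝ) ^ (0.005 : ℝ) :=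
          mul_le_mul hw2 hl (by linarith) (by positivity)
      _ = _ := by rw [← Real.rpow_add hn0]; norm_num
  have hXc : X ≤ (⌈X⌉₊ : ℝ) := Nat.le_ceil X
  have hXc2 : (⌈X⌉₊ : ℝ) ≤ 2 * X := by
    have := (Nat.ceil_lt_add_one (by linarith : 0 ≤ X)).le
    linarith
  have hMM : (MM n r : ℝ) = 8 * (⌈X⌉₊ : ℝ) := by
    unfold MM
    rw [hX]
    push_cast
    ring
  refine ⟨by omega, ?_, ?_, ?_, ?_, ?_⟩
  · rw [hMM]
    have h3 : 4000 * Real.log n ^ 2 ≤ X := by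
      rw [hX, pow_two, ← mul_assoc]
      exact mul_le_mul_of_nonneg_right hw1 (by linarith)
    linarith
  · rw [hMM]
    calc 8 * (⌈X⌉₊ : ℝ) ≤ 16 * (n : ℝ) ^ (0.095 : ℝ) := by linarith
      _ ≤ (n : ℝ) ^ (0.005 : ℝ) * (n : ℝ) ^ (0.095 : ℝ) :=
          mul_le_mul_of_nonneg_right h16 (by positivity)
      _ = _ := by rw [← Real.rpow_add hn0]; norm_num
  · have h3 : (⌊(n : ℝ) ^ (0.8 : ℝ)⌋₊ : ℝ) ≤ (n : ℝ) ^ (0.8 : ℝ) := Nat.floor_le (by positivity)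
    have h4 : (⌊(n : ℝ) ^ (0.8 : ℝ)⌋₊ : ℝ) * (4 * (⌈X⌉₊ : ℝ)) ≤ n := by
      calc (⌊(n : ℝ) ^ (0.8 : ℝ)⌋₊ : ℝ) * (4 * (⌈X⌉₊ : ℝ)) ≤
            (n : ℝ) ^ (0.8 : ℝ) * ((n : ℝ) ^ (0.005 : ℝ) * (n : ℝ) ^ (0.095 : ℝ)) := by
            apply mul_le_mul h3 _ (by positivity) (by positivity)
            calc 4 * (⌈X⌉₊ : ℝ) ≤ 16 * (n : ℝ) ^ (0.095 : ℝ) := by
                  have : 0 ≤ (n : ℝ) ^ (0.095 : ℝ) := by positivity
                  linarith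
              _ ≤ _ := mul_le_mul_of_nonneg_right h16 (by positivity)
        _ = (n : ℝ) ^ (0.9 : ℝ) := by
            rw [← Real.rpow_add hn0, ← Real.rpow_add hn0]
            norm_num
        _ ≤ (n : ℝ) ^ (1 : ℝ) := Real.rpow_le_rpow_of_exponent_le (by linarith) (by norm_num)
        _ = n := Real.rpow_one _
    rw [← hX]
    exact_mod_cast h4
  · exact Real.one_le_rpow (by linarith) (by norm_num)
  · calc (n : ℝ) ^ (0.8 : ℝ) ≤ (n : ℝ) ^ (1 : ℝ) :=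
          Real.rpow_le_rpow_of_exponent_le (by linarith) (by norm_num)
      _ = n := Real.rpow_one _

theorem exp_of (hSL : S_SL) (hTWO : S_TWO) : S_EXP := by
  intro K hK
  obtain ⟨ε, hε, n₁, h1⟩ := hTWO K (by omega)
  obtain ⟨n₂, h2⟩ := hSL K hK
  obtain ⟨n₃, h3⟩ := num_exp
  refine ⟨ε, hε, max n₁ (max n₂ n₃), fun n hn r hr => ?_⟩
  have hT := h1 n (by omega) r ⟨hr.1, by
    refine le_trans ?_ hr.2.1
    have hl : 0 ≤ Real.log n := Real.log_natCast_nonneg n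
    linarith, hr.2.2⟩
  have hS := h2 n (by omega)
  obtain ⟨hn1, hM1, hM2, hblk, hp1, hp2⟩ := h3 n (by omega) r hr
  obtain ⟨m, hm⟩ : ∃ m, m = ⌊(n : ℝ) ^ (0.8 : ℝ)⌋₊ := ⟨_, rfl⟩
  obtain ⟨H, hH⟩ : ∃ H, H = ⌈((n : ℝ) / r) * Real.log n⌉₊ := ⟨_, rfl⟩
  rw [← hm, ← hH] at hblk
  have hMMH : MM n r = 8 * H := by rw [hH]; rfl
  obtain ⟨τ, hτ1, hτ2, hτ3⟩ := exists_blocks n m H hblk
  have hm0 : 0 < m := by
    rw [hm]
    exact Nat.floor_pos.2 hp1
  obtain ⟨e, he⟩ : ∃ e, e = Real.exp (-(n : ℝ) ^ (0.8 : ℝ)) := ⟨_, rfl⟩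
  have he0 : 0 < e := by rw [he]; exact Real.exp_pos _
  have hsupp : ∀ a b, a ≠ b → ((τ b * τ a : Alt n) : Perm (Fin n)).support.card = MM n r := by
    intro a b hab
    have hd : Perm.Disjoint (τ b : Perm (Fin n)) (τ a : Perm (Fin n)) := by
      rw [Perm.disjoint_iff_disjoint_support]
      exact (hτ3 a b hab).symm
    show ((τ b : Perm (Fin n)) * (τ a : Perm (Fin n))).support.card = _
    rw [hd.card_support_mul, hτ2, hτ2, hMMH]
    ring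
  have hSc : ∀ P : Finset (Fin n), P.card = MM n r →
      ((univ.filter fun z : Fin K → Alt n => GD z ∧ ¬ SP z P).card : ℝ) ≤
        e * (Fintype.card (Fin K → Alt n) : ℝ) := by
    intro P hP
    rw [he]
    exact hS P (by rw [hP]; exact hM1) (by rw [hP]; exact hM2)
  have hmain := expu (Z := Fin K → Alt n) (G := Alt n)
    (fun z y => GD z ∧ Real.exp (-(ε * r)) < rp (Fin.snoc z y : Fin (K + 1) → Alt n) r r) hm0 τ
    (2 * e) (by positivity) (by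
    intro y a b hab
    obtain ⟨y', hy'⟩ : ∃ y', y' = τ a * y := ⟨_, rfl⟩
    obtain ⟨t, ht⟩ : ∃ t, t = τ b * τ a := ⟨_, rfl⟩
    have hty : t * y' = τ b * y := by
      rw [ht, hy', mul_assoc, ← mul_assoc (τ a), hτ1, one_mul]
    obtain ⟨P, hP⟩ : ∃ P, P = (t : Perm (Fin n)).support := ⟨_, rfl⟩
    obtain ⟨P', hP'⟩ : ∃ P', P' = P.image ((y' : Perm (Fin n))⁻¹ : Perm (Fin n)) := ⟨_, rfl⟩
    have hPc : P.card = MM n r := by
      rw [hP, ht]
      exact hsupp a b hab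
    have hPc' : P'.card = MM n r := by
      rw [hP', card_image_of_injective _ (Equiv.injective _), hPc]
    have hsub : (univ.filter fun z : Fin K → Alt n =>
        (GD z ∧ Real.exp (-(ε * r)) < rp (Fin.snoc z (τ a * y) : Fin (K + 1) → Alt n) r r) ∧
        (GD z ∧ Real.exp (-(ε * r)) < rp (Fin.snoc z (τ b * y) : Fin (K + 1) → Alt n) r r)) ⊆
        (univ.filter fun z : Fin K → Alt n => GD z ∧ ¬ SP z P) ∪
        (univ.filter fun z : Fin K → Alt n => GD z ∧ ¬ SP z P') := by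
      intro z hz
      rw [mem_filter] at hz
      obtain ⟨-, ⟨hg, hb1⟩, -, hb2⟩ := hz
      rw [mem_union, mem_filter, mem_filter]
      by_contra hcon
      push Not at hcon
      have hs1 : SP z P := by
        by_contra h
        exact h (hcon.1 (mem_univ _) hg)
      have hs2 : SP z P' := by
        by_contra h
        exact h (hcon.2 (mem_univ _) hg)
      rw [hP] at hs1
      rw [hP', hP] at hs2
      rcases hT z y' t (by rw [← hP]; exact hPc) hs1 hs2 with h | h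
      · rw [hy'] at h
        exact absurd hb1 (not_lt.2 h)
      · rw [hty] at h
        exact absurd hb2 (not_lt.2 h)
    have h4 := (card_le_card hsub).trans (card_union_le _ _)
    have h5 : (((univ.filter fun z : Fin K → Alt n =>
        (GD z ∧ Real.exp (-(ε * r)) < rp (Fin.snoc z (τ a * y) : Fin (K + 1) → Alt n) r r) ∧
        (GD z ∧ Real.exp (-(ε * r)) < rp (Fin.snoc z (τ b * y) : Fin (K + 1) → Alt n) r r)).card :
          ℕ) : ℝ) ≤ ((univ.filter fun z : Fin K → Alt n => GD z ∧ ¬ SP z P).card : ℝ) +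
        ((univ.filter fun z : Fin K → Alt n => GD z ∧ ¬ SP z P').card : ℝ) := by
      exact_mod_cast h4
    have h6 := hSc P hPc
    have h7 := hSc P' hPc'
    have h9 := h5.trans (by linarith : _ ≤ 2 * e * (Fintype.card (Fin K → Alt n) : ℝ))
    convert h9
    rfl)
  have hmr : (m : ℝ) ≤ n := by
    have : (m : ℝ) ≤ (n : ℝ) ^ (0.8 : ℝ) := by
      rw [hm]
      exact Nat.floor_le (by positivity)
    linarith
  have hmr2 : (n : ℝ) ^ (0.8 : ℝ) ≤ 2 * m := by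
    have h4 : (n : ℝ) ^ (0.8 : ℝ) < (m : ℝ) + 1 := by
      rw [hm]
      exact Nat.lt_floor_add_one _
    have h5 : (1 : ℝ) ≤ m := by exact_mod_cast hm0
    linarith
  have hinv : (1 : ℝ) / m ≤ 2 * (n : ℝ) ^ (-0.8 : ℝ) := by
    have hn0 : (0 : ℝ) < n := by exact_mod_cast hn1
    have hm0' : (0 : ℝ) < m := by exact_mod_cast hm0
    rw [Real.rpow_neg hn0.le, div_le_iff₀ hm0']
    have hp : 0 < (n : ℝ) ^ (0.8 : ℝ) := by positivity
    have h5 : 1 = (n : ℝ) ^ (0.8 : ℝ) * ((n : ℝ) ^ (0.8 : ℝ))⁻¹ := (mul_inv_cancel₀ hp.ne').symm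
    calc (1 : ℝ) = (n : ℝ) ^ (0.8 : ℝ) * ((n : ℝ) ^ (0.8 : ℝ))⁻¹ := h5
      _ ≤ 2 * m * ((n : ℝ) ^ (0.8 : ℝ))⁻¹ := mul_le_mul_of_nonneg_right hmr2 (by positivity)
      _ = _ := by ring
  have h10 : (1 / (m : ℝ) + m * (2 * e)) *
      ((Fintype.card (Fin K → Alt n) : ℝ) * (Fintype.card (Alt n) : ℝ)) ≤
      (2 * (n : ℝ) ^ (-0.8 : ℝ) + 2 * n * Real.exp (-(n : ℝ) ^ (0.8 : ℝ))) *
      (Fintype.card ((Fin K → Alt n) × Alt n) : ℝ) := by
    rw [Fintype.card_prod, Nat.cast_mul, ← he]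
    apply mul_le_mul_of_nonneg_right _ (by positivity)
    have h8 : (m : ℝ) * (2 * e) ≤ 2 * n * e := by nlinarith
    linarith
  have h11 := hmain.trans h10
  convert h11
  rfl

end Pool.Agent.Helper7.FS
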