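import Pool.Agent.Helper91.FS.Goals
import Pool.Agent.Helper41.NF.N1C

/-!
# Project FS, packet N0 (numerical facts)
-/

set_option autoImplicit false

namespace Pool.Agent.Helper7.FS

open Finset Nat

/-- `1000 m s² ≤ n`. -/
lemma bound1 {m n s : ℕ} (hm : 1 ≤ m) (hn : (1000 * m) ^ 50 ≤ n) (hs1 : 1 ≤ s)
    (hs : s ^ (100 * m) ≤ n) : 1000 * m * s ^ 2 ≤ n := by
  have hn1 : 1 ≤ n := le_trans (Nat.one_le_pow _ _ (by omega)) hn
  have h0 : s ^ 100 ≤ n := le_trans (Nat.pow_le_pow_right hs1 (by omega)) hs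
  have h1 : (1000 * m * s ^ 2) ^ 50 ≤ n ^ 50 := by
    calc (1000 * m * s ^ 2) ^ 50 = (1000 * m) ^ 50 * s ^ 100 := by ring
      _ ≤ n * n := Nat.mul_le_mul hn h0
      _ = n ^ 2 := by ring
      _ ≤ n ^ 50 := Nat.pow_le_pow_right hn1 (by norm_num)
  exact le_of_not_gt fun h => absurd (Nat.pow_lt_pow_left h (by norm_num)) (not_lt.mpr h1)

/-- lower bound for a binomial coefficient with a small lower index -/
lemma choose_low {a m c n : ℕ} (h : n ≤ c * (a + 1 - m)) :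
    n ^ m ≤ c ^ m * (m ! * a.choose m) := by
  have h1 : (a + 1 - m) ^ m ≤ m ! * a.choose m := by
    rw [← Nat.descFactorial_eq_factorial_mul_choose]
    exact Nat.pow_sub_le_descFactorial a m
  calc n ^ m ≤ (c * (a + 1 - m)) ^ m := Nat.pow_le_pow_left h m
    _ = c ^ m * (a + 1 - m) ^ m := mul_pow _ _ _
    _ ≤ _ := Nat.mul_le_mul_left _ h1

/-- `K s^(2m+1) Y ≤ n^(m+1)` -/
lemma bound2 {m n s K Y : ℕ} (hm : 1 ≤ m) (hn : K ^ 100 ≤ n) (hn1 : 1 ≤ n) (hs1 : 1 ≤ s)
    (hs : s ^ (100 * m) ≤ n) (hY : Y ^ 10 ≤ n ^ (10 * m + 9)) :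
    K * s ^ (2 * m + 1) * Y ≤ n ^ (m + 1) := by
  have h1 : (K * s ^ (2 * m + 1) * Y) ^ 100 ≤ (n ^ (m + 1)) ^ 100 := by
    calc (K * s ^ (2 * m + 1) * Y) ^ 100 = K ^ 100 * s ^ ((2 * m + 1) * 100) * (Y ^ 10) ^ 10 := by
          rw [mul_pow, mul_pow, ← pow_mul, ← pow_mul]
      _ ≤ K ^ 100 * s ^ (100 * m * 3) * (n ^ (10 * m + 9)) ^ 10 := by
          refine Nat.mul_le_mul (Nat.mul_le_mul_left _ (Nat.pow_le_pow_right hs1 (by omega)))
            (Nat.pow_le_pow_left hY 10)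
      _ ≤ n * n ^ 3 * (n ^ (10 * m + 9)) ^ 10 := by
          refine Nat.mul_le_mul_right _ (Nat.mul_le_mul hn ?_)
          rw [pow_mul]
          exact Nat.pow_le_pow_left hs 3
      _ = n ^ (1 + 3 + (10 * m + 9) * 10) := by
          rw [← pow_mul, pow_add, pow_add, pow_one]
      _ ≤ n ^ ((m + 1) * 100) := Nat.pow_le_pow_right hn1 (by omega)
      _ = (n ^ (m + 1)) ^ 100 := by rw [← pow_mul]
  exact le_of_not_gt fun h => absurd (Nat.pow_lt_pow_left h (by norm_num)) (not_lt.mpr h1)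

theorem goal_N0 : Pool.Agent.Helper91.FS.Goal_N0 := by
  intro m hm
  set F : ℕ := m ! with hF
  have hF1 : 1 ≤ F := Nat.factorial_pos m
  set K : ℕ := (m + 2) * (8 * m) * 8 ^ m * F with hK
  refine ⟨(1000 * m) ^ 50 + K ^ 100 + (2 ^ (m + 1) * F) ^ 10, ?_⟩
  intro n hn s k k' E E' hs1 hs hks hk1 hks' hE hE'
  have hnA : (1000 * m) ^ 50 ≤ n := by omega
  have hnB : K ^ 100 ≤ n := by omega
  have hnC : (2 ^ (m + 1) * F) ^ 10 ≤ n := by omega
  have hn1 : 1 ≤ n := le_trans (Nat.one_le_pow _ _ (by omega)) hnA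
  have hB := bound1 hm hnA hs1 hs
  have hss : s ≤ s ^ 2 := by nlinarith
  have hs21 : 1 ≤ s ^ 2 := Nat.one_le_pow _ _ hs1
  have hms : m ≤ m * s ^ 2 := Nat.le_mul_of_pos_right _ hs21
  have hsm : s ^ 2 ≤ m * s ^ 2 := Nat.le_mul_of_pos_left _ hm
  have hsmm : s * m ≤ m * s ^ 2 := by
    calc s * m = m * s := mul_comm _ _
      _ ≤ m * s ^ 2 := Nat.mul_le_mul_left _ hss
  have hB' : 1000 * (m * s ^ 2) ≤ n := by rw [← mul_assoc]; exact hB
  have hsm1 : s * (m + 1) ≤ 2 * (m * s ^ 2) := by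
    rw [mul_add, mul_one]
    omega
  have hm4 : 4 * m ^ 2 ≤ n := by
    refine le_trans ?_ hnA
    calc 4 * m ^ 2 ≤ 1000 ^ 2 * m ^ 2 := Nat.mul_le_mul_right _ (by norm_num)
      _ = (1000 * m) ^ 2 := by ring
      _ ≤ (1000 * m) ^ 50 := Nat.pow_le_pow_right (by omega) (by norm_num)
  have hspos : 0 < 4 * s ^ 2 := by omega
  set z : ℕ := n / (4 * s ^ 2) with hz
  have hdiv : 4 * s ^ 2 * z ≤ n := Nat.mul_div_le n _
  have hdiv' : n < 4 * s ^ 2 * (z + 1) := Nat.lt_mul_div_succ n hspos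
  have hzm : m ≤ z := by
    rw [hz, Nat.le_div_iff_mul_le hspos]
    calc m * (4 * s ^ 2) = 4 * (m * s ^ 2) := by ring
      _ ≤ 1000 * (m * s ^ 2) := Nat.mul_le_mul_right _ (by norm_num)
      _ ≤ n := hB'
  set q : ℕ := n / (4 * m) with hq
  have hqd : 4 * m * q ≤ n := Nat.mul_div_le n _
  have hqd' : n < 4 * m * (q + 1) := Nat.lt_mul_div_succ n (by omega)
  have hnm : 1000 * m ≤ n := le_trans (by omega) hB'
  have h4q : 4 * q ≤ n := by
    refine le_trans ?_ hqd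
    exact Nat.mul_le_mul_right _ (by omega)
  refine ⟨?_, ?_, ?_, hzm, ?_, ?_, ?_, ?_⟩
  · -- first claim
    set Y : ℕ := max (n * E) E' with hYd
    have hY : Y ^ 10 ≤ n ^ (10 * m + 9) := by
      rcases le_total (n * E) E' with h | h
      · rw [hYd, max_eq_right h]; exact hE'
      · rw [hYd, max_eq_left h, mul_pow]
        calc n ^ 10 * E ^ 10 ≤ n ^ 10 * n ^ (10 * m - 1) := Nat.mul_le_mul_left _ hE
          _ = n ^ (10 * m + 9) := by
            rw [← pow_add]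
            congr 1
            omega
    have h1 := bound2 hm hnB hn1 hs1 hs hY
    -- lower bound
    have hz8 : n ≤ 8 * s ^ 2 * (z + 1 - m) := by
      have e1 : z + 1 - m + m = z + 1 := by omega
      have e2 : 8 * s ^ 2 * (z + 1) = 8 * s ^ 2 * (z + 1 - m) + 8 * (m * s ^ 2) := by
        conv_lhs => rw [← e1]
        ring
      have e3 : 2 * (4 * s ^ 2 * (z + 1)) = 8 * s ^ 2 * (z + 1) := by ring
      omega
    have h2 := choose_low (m := m) hz8
    have hq8 : n ≤ 8 * m * q := by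
      have e1 : 4 * m * (q + 1) = 4 * m * q + 4 * m := by ring
      have e2 : 8 * m * q = 2 * (4 * m * q) := by ring
      omega
    have h3 : n ^ (m + 1) ≤ (8 * m * q) * ((8 * s ^ 2) ^ m * (F * z.choose m)) := by
      rw [pow_succ, mul_comm]
      exact Nat.mul_le_mul hq8 h2
    have h4 := h1.trans h3
    have hpos : 0 < 8 * m * 8 ^ m * F * s ^ (2 * m) := by positivity
    have h5 : (m + 2) * s * Y ≤ q * z.choose m := by
      refine Nat.le_of_mul_le_mul_left ?_ hpos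
      calc 8 * m * 8 ^ m * F * s ^ (2 * m) * ((m + 2) * s * Y)
          = K * s ^ (2 * m + 1) * Y := by rw [hK]; ring
        _ ≤ _ := h4
        _ = 8 * m * 8 ^ m * F * s ^ (2 * m) * (q * z.choose m) := by
          rw [mul_pow, ← pow_mul]; ring
    refine le_trans ?_ h5
    have h6 : k' * (n - m) * E ≤ s * Y := by
      calc k' * (n - m) * E ≤ s * n * E :=
            Nat.mul_le_mul_right _ (Nat.mul_le_mul hks' (Nat.sub_le _ _))
        _ = s * (n * E) := mul_assoc _ _ _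
        _ ≤ s * Y := Nat.mul_le_mul_left _ (le_max_left _ _)
    have h7 : k * (m + 1) * E' ≤ (m + 1) * s * Y := by
      calc k * (m + 1) * E' ≤ s * (m + 1) * Y :=
            Nat.mul_le_mul (Nat.mul_le_mul_right _ hks) (le_max_right _ _)
        _ = (m + 1) * s * Y := by ring
    calc k' * (n - m) * E + k * (m + 1) * E' ≤ s * Y + (m + 1) * s * Y := Nat.add_le_add h6 h7
      _ = (m + 2) * s * Y := by ring
  · -- second claim
    have h1 := Pool.Agent.Helper41.NF.choose_shift hm hm4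
    rw [← hq] at h1
    have h2 : 2 * E ≤ n.choose m := by
      have h3 : n ≤ 2 * (n + 1 - m) := by omega
      have h4 := choose_low (m := m) h3
      have h5 : 2 ^ (m + 1) * F * E ≤ n ^ m := by
        have h6 : (2 ^ (m + 1) * F * E) ^ 10 ≤ (n ^ m) ^ 10 := by
          calc (2 ^ (m + 1) * F * E) ^ 10 = (2 ^ (m + 1) * F) ^ 10 * E ^ 10 := mul_pow _ _ _
            _ ≤ n * n ^ (10 * m - 1) := Nat.mul_le_mul hnC hE
            _ = n ^ (10 * m) := by
              rw [← pow_succ']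
              congr 1
              omega
            _ = (n ^ m) ^ 10 := by rw [← pow_mul, mul_comm]
        exact le_of_not_gt fun h => absurd (Nat.pow_lt_pow_left h (by norm_num)) (not_lt.mpr h6)
      have hpos : 0 < 2 ^ m * F := by positivity
      refine Nat.le_of_mul_le_mul_left ?_ hpos
      calc 2 ^ m * F * (2 * E) = 2 ^ (m + 1) * F * E := by ring
        _ ≤ n ^ m := h5
        _ ≤ 2 ^ m * (F * n.choose m) := h4
        _ = 2 ^ m * F * n.choose m := by ring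
    omega
  · calc k * (m + 1) ≤ s * (m + 1) := Nat.mul_le_mul_right _ hks
      _ ≤ 1 * (n - m) := by omega
      _ ≤ k' * (n - m) := Nat.mul_le_mul_right _ hk1
  · have h1 : 64 * s ^ 2 * z = 16 * (4 * s ^ 2 * z) := by ring
    omega
  · omega
  · omega
  · omega

end Pool.Agent.Helper7.FS
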