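import Pool.Agent.Helper13.FS.StageD

/-!
# Split tokens (MP_75608d_al, final step, part (D) SPLIT-A)

Two paths with the same slots and independent blocks. In each round the probability that at least
`b` tokens have the same query point is at most `2 ^ s * ρ`, `ρ` the supremum of the return
probabilities of `b`-tuples.
-/

set_option autoImplicit false
set_option linter.unusedSectionVars false

namespace Pool.Agent.Helper7.FS

open Finset Pool.Agent.Helper35.MP Pool.Agent.Helper13.FS

section kernel

variable {X Lam : Type*} [Fintype X] [DecidableEq X] [Fintype Lam] [DecidableEq Lam]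

theorem stp_adj (L : Letters X Lam) {θ : ℝ} {S : Lam → ℝ} (hS : Wt L θ S) (u v : X → ℝ) :
    ∑ z, u z * stp L S v z = ∑ z, stp L S u z * v z := by
  have h1 : ∀ l, ∑ z, S l * (u z * v (L.act l z)) =
      ∑ z, S (L.inv l) * (u (L.act (L.inv l) z) * v z) := by
    intro l
    rw [hS.sym, ← Equiv.sum_comp (L.act l) (fun z => S l * (u (L.act (L.inv l) z) * v z))]
    apply sum_congr rfl
    intro z _
    rw [L.act_inv]
    simp
  have h2 : Function.Bijective L.inv := by
    refine ⟨fun a b h => ?_, fun a => ⟨L.inv a, L.inv_inv a⟩⟩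
    rw [← L.inv_inv a, h, L.inv_inv]
  unfold stp
  calc ∑ z, u z * ∑ l, S l * v (L.act l z) = ∑ l, ∑ z, S l * (u z * v (L.act l z)) := by
        rw [sum_comm]
        apply sum_congr rfl
        intro z _
        rw [mul_sum]
        exact sum_congr rfl fun l _ => by ring
    _ = ∑ l, ∑ z, S (L.inv l) * (u (L.act (L.inv l) z) * v z) := sum_congr rfl fun l _ => h1 l
    _ = ∑ l, ∑ z, S l * (u (L.act l z) * v z) :=
        h2.sum_comp fun l => ∑ z, S l * (u (L.act l z) * v z)
    _ = _ := by
        rw [sum_comm]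
        apply sum_congr rfl
        intro z _
        rw [sum_mul]
        exact sum_congr rfl fun l _ => by ring

theorem stp_iter_adj (L : Letters X Lam) {θ : ℝ} {S : Lam → ℝ} (hS : Wt L θ S) :
    ∀ (t : ℕ) (u v : X → ℝ),
      ∑ z, u z * ((stp L S)^[t] v) z = ∑ z, ((stp L S)^[t] u) z * v z
  | 0, _, _ => rfl
  | t + 1, u, v => by
    rw [Function.iterate_succ_apply', stp_adj L hS, stp_iter_adj L hS t,
      ← Function.iterate_succ_apply]

theorem hk_symm (L : Letters X Lam) {θ : ℝ} {S : Lam → ℝ} (hS : Wt L θ S) (t : ℕ) (x y : X) :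
    hk L S t x y = hk L S t y x := by
  have h := stp_iter_adj L hS t (fun z => if z = y then 1 else 0) (fun z => if z = x then 1 else 0)
  simp only [ite_mul, mul_ite, one_mul, mul_one, zero_mul, mul_zero, sum_ite_eq', mem_univ,
    if_true] at h
  exact h

/-- two independent walks from `x` and `x'` meet with probability at most the supremum of the
return probabilities -/
theorem meet_le (L : Letters X Lam) {θ : ℝ} {S : Lam → ℝ} (hS : Wt L θ S) (t : ℕ) {ρ : ℝ}
    (hρ : ∀ x, ret L S t x ≤ ρ) (x x' : X) :
    ∑ a : Fin t → Lam, ∑ b : Fin t → Lam,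
      (if pos L t a x = pos L t b x' then (∏ k, S (a k)) * (∏ k, S (b k)) else 0) ≤ ρ := by
  have h1 : ∑ a : Fin t → Lam, ∑ b : Fin t → Lam,
      (if pos L t a x = pos L t b x' then (∏ k, S (a k)) * (∏ k, S (b k)) else 0) =
      ∑ z, hk L S t x z * hk L S t x' z := by
    have h2 : ∀ z, hk L S t x z * hk L S t x' z = ∑ a : Fin t → Lam, ∑ b : Fin t → Lam,
        if pos L t a x = z ∧ pos L t b x' = z then (∏ k, S (a k)) * (∏ k, S (b k)) else 0 := by
      intro z
      rw [hk_symm L hS t x z, hk_symm L hS t x' z, hk_words, hk_words, sum_mul_sum]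
      apply sum_congr rfl
      intro a _
      apply sum_congr rfl
      intro b _
      by_cases ha : pos L t a x = z
      · by_cases hb : pos L t b x' = z
        · simp only [ha, hb, if_true, and_self]
        · simp only [ha, hb, if_true, if_false, and_false, mul_zero]
      · simp only [ha, if_false, false_and, zero_mul]
    simp only [h2]
    symm
    rw [sum_comm]
    apply sum_congr rfl
    intro a _
    rw [sum_comm]
    apply sum_congr rfl
    intro b _
    rw [sum_eq_single (pos L t a x)]
    · by_cases h : pos L t a x = pos L t b x'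
      · rw [if_pos ⟨rfl, h.symm⟩, if_pos h]
      · rw [if_neg fun h' => h h'.2.symm, if_neg h]
    · intro z _ hz
      rw [if_neg fun h' => hz h'.1.symm]
    · intro h
      exact absurd (mem_univ _) h
  rw [h1]
  calc ∑ z, hk L S t x z * hk L S t x' z ≤
        ∑ z, (1 / 2 * hk L S t x z ^ 2 + 1 / 2 * hk L S t x' z ^ 2) := by
        apply sum_le_sum
        intro z _
        nlinarith [sq_nonneg (hk L S t x z - hk L S t x' z)]
    _ = 1 / 2 * ret L S t x + 1 / 2 * ret L S t x' := by
        rw [sum_add_distrib, ← mul_sum, ← mul_sum]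
        rfl
    _ ≤ _ := by linarith [hρ x, hρ x']

/-- the same for permutations acting on tuples -/
theorem law_meet_le (L : Letters X Lam) {θ : ℝ} {S : Lam → ℝ} (hS : Wt L θ S) (t b : ℕ) {ρ : ℝ}
    (hρ : ∀ x, ret (tup L b) S t x ≤ ρ) (x x' : Fin b ↪ X) :
    ∑ A, ∑ B, (if ∀ j, A (x j) = B (x' j) then law L S t A * law L S t B else 0) ≤ ρ := by
  refine le_trans (le_of_eq ?_) (meet_le (tup L b) (Wt_tup L b hS) t hρ x x')
  have h1 : ∀ A : Equiv.Perm X,
      ∑ B, (if ∀ j, A (x j) = B (x' j) then law L S t A * law L S t B else 0) =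
      law L S t A * ∑ B, law L S t B * (if ∀ j, A (x j) = B (x' j) then 1 else 0) := by
    intro A
    rw [mul_sum]
    apply sum_congr rfl
    intro B _
    split_ifs <;> simp
  simp only [h1]
  rw [sum_law L S t fun A => ∑ B, law L S t B * (if ∀ j, A (x j) = B (x' j) then 1 else 0)]
  apply sum_congr rfl
  intro a _
  rw [sum_law L S t fun B => if ∀ j, wd L t a (x j) = B (x' j) then 1 else 0, mul_sum]
  apply sum_congr rfl
  intro c _
  rw [pos_eq_wd, pos_eq_wd, wd_tup, wd_tup]
  have h2 : (embPerm (wd L t a) x = embPerm (wd L t c) x') ↔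
      ∀ j, wd L t a (x j) = wd L t c (x' j) := by
    rw [DFunLike.ext_iff]
    rfl
  by_cases h : ∀ j, wd L t a (x j) = wd L t c (x' j)
  · rw [if_pos h, if_pos (h2.2 h), mul_one]
  · rw [if_neg h, if_neg fun h' => h (h2.1 h'), mul_zero, mul_zero]

end kernel

section round

variable {X : Type*} [Fintype X] [DecidableEq X]

/-- at least `b` tokens meet in one round -/
theorem round_le (P : Equiv.Perm X → ℝ) (hP : ∀ A, 0 ≤ P A) (s b : ℕ) {ρ : ℝ} (hρ0 : 0 ≤ ρ)
    (hρ : ∀ x x' : Fin b ↪ X, ∑ A, ∑ B, (if ∀ j, A (x j) = B (x' j) then P A * P B else 0) ≤ ρ)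
    (x x' : Fin s → X) (hx : Function.Injective x) (hx' : Function.Injective x') :
    ∑ A, ∑ B, (if b ≤ (univ.filter fun l : Fin s => A (x l) = B (x' l)).card then P A * P B
      else 0) ≤ 2 ^ s * ρ := by
  classical
  have h1 : ∀ A B : Equiv.Perm X,
      (if b ≤ (univ.filter fun l : Fin s => A (x l) = B (x' l)).card then P A * P B else 0) ≤
      ∑ J ∈ (univ : Finset (Fin s)).powersetCard b,
        (if ∀ l ∈ J, A (x l) = B (x' l) then P A * P B else 0) := by
    intro A B
    have h0 : 0 ≤ P A * P B := mul_nonneg (hP A) (hP B)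
    split_ifs with h
    · obtain ⟨J, hJ, hJc⟩ := exists_subset_card_eq h
      have h2 : J ∈ (univ : Finset (Fin s)).powersetCard b :=
        mem_powersetCard.2 ⟨subset_univ _, hJc⟩
      refine le_trans (le_of_eq ?_) (single_le_sum (f := fun J =>
        (if ∀ l ∈ J, A (x l) = B (x' l) then P A * P B else 0)) (fun J _ => ?_) h2)
      · rw [if_pos fun l hl => (mem_filter.1 (hJ hl)).2]
      · split_ifs
        · exact h0
        · exact le_rfl
    · apply sum_nonneg
      intro J _
      split_ifs
      · exact h0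
      · exact le_rfl
  have h2 : ∀ J ∈ (univ : Finset (Fin s)).powersetCard b,
      ∑ A, ∑ B, (if ∀ l ∈ J, A (x l) = B (x' l) then P A * P B else 0) ≤ ρ := by
    intro J hJ
    have hc := (mem_powersetCard.1 hJ).2
    obtain ⟨e⟩ : Nonempty (Fin b ≃ J) := ⟨(Finset.equivFinOfCardEq hc).symm⟩
    refine le_trans (le_of_eq ?_) (hρ ⟨fun j => x (e j), fun i j h => e.injective
      (Subtype.ext (hx h))⟩ ⟨fun j => x' (e j), fun i j h => e.injective (Subtype.ext (hx' h))⟩)
    apply sum_congr rfl
    intro A _
    apply sum_congr rfl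
    intro B _
    have h3 : (∀ l ∈ J, A (x l) = B (x' l)) ↔ ∀ j : Fin b, A (x (e j)) = B (x' (e j)) := by
      constructor
      · intro h j
        exact h _ (e j).2
      · intro h l hl
        have := h (e.symm ⟨l, hl⟩)
        rw [Equiv.apply_symm_apply] at this
        exact this
    exact if_congr h3 rfl rfl
  calc ∑ A, ∑ B, (if b ≤ (univ.filter fun l : Fin s => A (x l) = B (x' l)).card then P A * P B
        else 0) ≤ ∑ A, ∑ B, ∑ J ∈ (univ : Finset (Fin s)).powersetCard b,
        (if ∀ l ∈ J, A (x l) = B (x' l) then P A * P B else 0) :=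
        sum_le_sum fun A _ => sum_le_sum fun B _ => h1 A B
    _ = ∑ J ∈ (univ : Finset (Fin s)).powersetCard b, ∑ A, ∑ B,
        (if ∀ l ∈ J, A (x l) = B (x' l) then P A * P B else 0) := by
        symm
        rw [sum_comm]
        apply sum_congr rfl
        intro A _
        exact sum_comm
    _ ≤ ∑ _J ∈ (univ : Finset (Fin s)).powersetCard b, ρ := sum_le_sum h2
    _ ≤ 2 ^ s * ρ := by
        rw [sum_const, nsmul_eq_mul]
        apply mul_le_mul_of_nonneg_right _ hρ0
        rw [card_powersetCard, card_univ, Fintype.card_fin]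
        exact_mod_cast Nat.choose_le_two_pow s b

end round

section chain

variable {Ω : Type*} [Fintype Ω]

/-- extension of a finite sequence -/
def ext (o : Ω) {N : ℕ} (h : Fin N → Ω) (i : ℕ) : Ω := if hi : i < N then h ⟨i, hi⟩ else o

theorem ext_snoc (o : Ω) {N : ℕ} (h : Fin N → Ω) (w : Ω) :
    ext o (Fin.snoc h w : Fin (N + 1) → Ω) = Function.update (ext o h) N w := by
  funext i
  by_cases h1 : i < N
  · have h2 : i < N + 1 := by omega
    rw [Function.update_of_ne h1.ne]
    unfold ext
    rw [dif_pos h2, dif_pos h1]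
    exact Fin.snoc_castSucc (α := fun _ => Ω) w h ⟨i, h1⟩
  · by_cases h2 : i = N
    · subst h2
      rw [Function.update_self]
      unfold ext
      rw [dif_pos (Nat.lt_succ_self i)]
      exact Fin.snoc_last (α := fun _ => Ω) w h
    · rw [Function.update_of_ne h2]
      unfold ext
      rw [dif_neg (by omega), dif_neg h1]

/-- events with conditional probabilities at most `c` given the past -/
theorem chain_le (w : Ω → ℝ) (hw0 : ∀ ω, 0 ≤ w ω) (hw1 : ∑ ω, w ω = 1) (o : Ω)
    (E : ℕ → (ℕ → Ω) → Prop) (hloc : ∀ i h h', (∀ k ≤ i, h k = h' k) → E i h → E i h')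
    {c : ℝ} (hc : 0 ≤ c)
    (hE : ∀ i h, ∀ (_ : DecidablePred fun ω => E i (Function.update h i ω)),
      ∑ ω, (if E i (Function.update h i ω) then w ω else 0) ≤ c) :
    ∀ (N : ℕ) (R : Finset ℕ), R ⊆ range N →
      ∀ (_ : DecidablePred fun h : Fin N → Ω => ∀ i ∈ R, E i (ext o h)),
        ∑ h : Fin N → Ω, (if ∀ i ∈ R, E i (ext o h) then ∏ k, w (h k) else 0) ≤ c ^ R.card := by
  classical
  intro N
  induction N with
  | zero =>
    intro R hR _
    have h1 : R = ∅ := by
      rw [range_zero] at hR
      exact subset_empty.1 hR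
    subst h1
    rw [sum_fin0]
    simp
  | succ N ih =>
    intro R hR hdec
    have h0 : ∑ h : Fin (N + 1) → Ω, (if ∀ i ∈ R, E i (ext o h) then ∏ k, w (h k) else 0) =
        ∑ h : Fin N → Ω, ∑ ω, (if ∀ i ∈ R, E i (Function.update (ext o h) N ω) then
          (∏ k, w (h k)) * w ω else 0) := by
      rw [sum_snoc']
      apply sum_congr rfl
      intro h _
      apply sum_congr rfl
      intro ω _
      rw [Fin.prod_univ_castSucc]
      simp only [Fin.snoc_last, Fin.snoc_castSucc]
      exact if_congr (by rw [ext_snoc]) rfl rfl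
    rw [h0]
    obtain ⟨R', hR'⟩ : ∃ R', R' = R.erase N := ⟨_, rfl⟩
    have hR'N : R' ⊆ range N := by
      intro i hi
      rw [hR', mem_erase] at hi
      have := mem_range.1 (hR hi.2)
      rw [mem_range]
      omega
    have hp : ∀ h : Fin N → Ω, 0 ≤ ∏ k, w (h k) := fun h => prod_nonneg fun k _ => hw0 _
    have h1 : ∀ (h : Fin N → Ω) (ω : Ω), (∀ i ∈ R', E i (Function.update (ext o h) N ω)) →
        ∀ i ∈ R', E i (ext o h) := by
      intro h ω hh i hi
      refine hloc i _ _ (fun k hk => ?_) (hh i hi)
      have := mem_range.1 (hR'N hi)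
      rw [Function.update_of_ne (by omega)]
    by_cases hN : N ∈ R
    · have hcard : R.card = R'.card + 1 := by
        rw [hR', card_erase_of_mem hN]
        have := card_pos.2 ⟨N, hN⟩
        omega
      rw [hcard, pow_succ]
      calc ∑ h : Fin N → Ω, ∑ ω, (if ∀ i ∈ R, E i (Function.update (ext o h) N ω) then
            (∏ k, w (h k)) * w ω else 0) ≤
          ∑ h : Fin N → Ω, (if ∀ i ∈ R', E i (ext o h) then ∏ k, w (h k) else 0) * c := by
            apply sum_le_sum
            intro h _
            by_cases h2 : ∀ i ∈ R', E i (ext o h)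
            · rw [if_pos h2]
              refine le_trans ?_ (mul_le_mul_of_nonneg_left (hE N (ext o h) (Classical.decPred _))
                (hp h))
              rw [mul_sum]
              apply sum_le_sum
              intro ω _
              by_cases h3 : E N (Function.update (ext o h) N ω)
              · rw [if_pos h3]
                split_ifs
                · exact le_rfl
                · exact mul_nonneg (hp h) (hw0 ω)
              · rw [if_neg h3, if_neg fun h4 => h3 (h4 N hN), mul_zero]
            · rw [if_neg h2, zero_mul]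
              apply le_of_eq
              apply sum_eq_zero
              intro ω _
              rw [if_neg]
              intro h3
              apply h2
              apply h1 h ω
              intro i hi
              apply h3
              rw [hR'] at hi
              exact (mem_erase.1 hi).2
        _ = (∑ h : Fin N → Ω, if ∀ i ∈ R', E i (ext o h) then ∏ k, w (h k) else 0) * c :=
            (sum_mul _ _ _).symm
        _ ≤ c ^ R'.card * c := mul_le_mul_of_nonneg_right (ih R' hR'N _) hc
    · have hRR : R' = R := by rw [hR', erase_eq_of_notMem hN]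
      rw [← hRR]
      refine le_trans ?_ (ih R' hR'N (Classical.decPred _))
      apply sum_le_sum
      intro h _
      by_cases h2 : ∀ i ∈ R', E i (ext o h)
      · rw [if_pos h2]
        calc ∑ ω, (if ∀ i ∈ R', E i (Function.update (ext o h) N ω) then
              (∏ k, w (h k)) * w ω else 0) ≤ ∑ ω, (∏ k, w (h k)) * w ω := by
              apply sum_le_sum
              intro ω _
              split_ifs
              · exact le_rfl
              · exact mul_nonneg (hp h) (hw0 ω)
          _ = _ := by rw [← mul_sum, hw1, mul_one]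
      · rw [if_neg h2]
        apply le_of_eq
        apply sum_eq_zero
        intro ω _
        rw [if_neg]
        exact fun h3 => h2 (h1 h ω h3)

/-- at least `m` of the events with indices in `D` -/
theorem chain_count (w : Ω → ℝ) (hw0 : ∀ ω, 0 ≤ w ω) (hw1 : ∑ ω, w ω = 1) (o : Ω)
    (E : ℕ → (ℕ → Ω) → Prop) (hloc : ∀ i h h', (∀ k ≤ i, h k = h' k) → E i h → E i h')
    {c : ℝ} (hc : 0 ≤ c)
    (hE : ∀ i h, ∀ (_ : DecidablePred fun ω => E i (Function.update h i ω)),
      ∑ ω, (if E i (Function.update h i ω) then w ω else 0) ≤ c) (N : ℕ) (D : Finset ℕ)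
    (hD : D ⊆ range N) (m : ℕ) (Q : (Fin N → Ω) → Prop) [DecidablePred Q]
    (hQ : ∀ h, Q h → ∃ R ⊆ D, R.card = m ∧ ∀ i ∈ R, E i (ext o h)) :
    ∑ h : Fin N → Ω, (if Q h then ∏ k, w (h k) else 0) ≤ 2 ^ D.card * c ^ m := by
  classical
  have hp : ∀ h : Fin N → Ω, 0 ≤ ∏ k, w (h k) := fun h => prod_nonneg fun k _ => hw0 _
  calc ∑ h : Fin N → Ω, (if Q h then ∏ k, w (h k) else 0) ≤
        ∑ h : Fin N → Ω, ∑ R ∈ D.powersetCard m,
          (if ∀ i ∈ R, E i (ext o h) then ∏ k, w (h k) else 0) := by
        apply sum_le_sum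
        intro h _
        split_ifs with hh
        · obtain ⟨R, hR1, hR2, hR3⟩ := hQ h hh
          refine le_trans (le_of_eq ?_) (single_le_sum (f := fun R =>
            (if ∀ i ∈ R, E i (ext o h) then ∏ k, w (h k) else 0)) (fun R _ => ?_)
            (mem_powersetCard.2 ⟨hR1, hR2⟩))
          · rw [if_pos hR3]
          · split_ifs
            · exact hp h
            · exact le_rfl
        · apply sum_nonneg
          intro R _
          split_ifs
          · exact hp h
          · exact le_rfl
    _ = ∑ R ∈ D.powersetCard m, ∑ h : Fin N → Ω,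
          (if ∀ i ∈ R, E i (ext o h) then ∏ k, w (h k) else 0) := sum_comm
    _ ≤ ∑ _R ∈ D.powersetCard m, c ^ m := by
        apply sum_le_sum
        intro R hR
        obtain ⟨hR1, hR2⟩ := mem_powersetCard.1 hR
        rw [← hR2]
        exact chain_le w hw0 hw1 o E hloc hc hE N R (hR1.trans hD) _
    _ ≤ _ := by
        rw [sum_const, nsmul_eq_mul, card_powersetCard]
        apply mul_le_mul_of_nonneg_right _ (pow_nonneg hc m)
        exact_mod_cast Nat.choose_le_two_pow D.card m

end chain

section split

variable {X : Type*} [Fintype X] [DecidableEq X]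

/-- the product of the first `i` rounds; in round `i` first the constant `A i`, then the slot `u i` -/
def pt (A u : ℕ → Equiv.Perm X) : ℕ → Equiv.Perm X
  | 0 => 1
  | i + 1 => u i * A i * pt A u i

omit [Fintype X] [DecidableEq X] in
theorem pt_congr {A A' u : ℕ → Equiv.Perm X} : ∀ {i : ℕ}, (∀ k < i, A k = A' k) →
    pt A u i = pt A' u i
  | 0, _ => rfl
  | i + 1, h => by
    show u i * A i * pt A u i = u i * A' i * pt A' u i
    rw [h i (Nat.lt_succ_self i), pt_congr fun k hk => h k (by omega)]

/-- the query point of the token `x` in round `v` -/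
def qp (A u : ℕ → Equiv.Perm X) (x : X) (v : ℕ) : X := A v (pt A u v x)

omit [Fintype X] [DecidableEq X] in
theorem qp_congr {A A' u : ℕ → Equiv.Perm X} {i : ℕ} (h : ∀ k ≤ i, A k = A' k) (x : X) :
    qp A u x i = qp A' u x i := by
  unfold qp
  rw [h i le_rfl, pt_congr fun k hk => h k hk.le]

/-- **SPLIT-A**: outside a set of small weight at least `3 / 8` of the pairs (token, round in `D`)
are split -/
theorem split_le (P : Equiv.Perm X → ℝ) (hP : ∀ A, 0 ≤ P A) (hP1 : ∑ A, P A = 1) {s b : ℕ}
    (hb : 4 * b ≤ s + 3) {ρ : ℝ} (hρ0 : 0 ≤ ρ)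
    (hρ : ∀ x x' : Fin b ↪ X, ∑ A, ∑ B, (if ∀ j, A (x j) = B (x' j) then P A * P B else 0) ≤ ρ)
    (x : Fin s → X) (hx : Function.Injective x) (u : ℕ → Equiv.Perm X) (N : ℕ) (D : Finset ℕ)
    (hD : D ⊆ range N) :
    ∑ A : Fin N → Equiv.Perm X, ∑ B : Fin N → Equiv.Perm X,
      (if 8 * (((univ : Finset (Fin s)) ×ˢ D).filter fun p =>
          qp (ext 1 A) u (x p.1) p.2 ≠ qp (ext 1 B) u (x p.1) p.2).card ≤ 3 * (s * D.card) then
        (∏ k, P (A k)) * ∏ k, P (B k) else 0) ≤
      2 ^ D.card * (2 ^ s * ρ) ^ ((D.card + 1) / 2) := by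
  classical
  obtain ⟨w, hw⟩ : ∃ w : Equiv.Perm X × Equiv.Perm X → ℝ, ∀ ω, w ω = P ω.1 * P ω.2 :=
    ⟨_, fun _ => rfl⟩
  have hw0 : ∀ ω, 0 ≤ w ω := fun ω => by
    rw [hw]
    exact mul_nonneg (hP _) (hP _)
  have hw1 : ∑ ω, w ω = 1 := by
    rw [Fintype.sum_prod_type]
    simp only [hw]
    rw [← sum_mul_sum, hP1, one_mul]
  obtain ⟨E, hEd⟩ : ∃ E : ℕ → (ℕ → Equiv.Perm X × Equiv.Perm X) → Prop, ∀ i h, E i h ↔
      b ≤ (univ.filter fun l : Fin s => qp (fun k => (h k).1) u (x l) i =
        qp (fun k => (h k).2) u (x l) i).card := ⟨_, fun _ _ => Iff.rfl⟩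
  have hloc : ∀ i h h', (∀ k ≤ i, h k = h' k) → E i h → E i h' := by
    intro i h h' hh he
    rw [hEd] at he ⊢
    convert he using 4 with l
    · exact qp_congr (fun k hk => by rw [hh k hk]) _
    · exact qp_congr (fun k hk => by rw [hh k hk]) _
  have hc : 0 ≤ 2 ^ s * ρ := by positivity
  have hE : ∀ i h, ∀ (_ : DecidablePred fun ω => E i (Function.update h i ω)),
      ∑ ω, (if E i (Function.update h i ω) then w ω else 0) ≤ 2 ^ s * ρ := by
    intro i h hdec
    have h1 : ∀ ω : Equiv.Perm X × Equiv.Perm X, E i (Function.update h i ω) ↔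
        b ≤ (univ.filter fun l : Fin s => ω.1 (pt (fun k => (h k).1) u i (x l)) =
          ω.2 (pt (fun k => (h k).2) u i (x l))).card := by
      intro ω
      rw [hEd]
      unfold qp
      simp only [Function.update_self]
      have e1 : pt (fun k => (Function.update h i ω k).1) u i = pt (fun k => (h k).1) u i :=
        pt_congr fun k hk => by rw [Function.update_of_ne hk.ne]
      have e2 : pt (fun k => (Function.update h i ω k).2) u i = pt (fun k => (h k).2) u i :=
        pt_congr fun k hk => by rw [Function.update_of_ne hk.ne]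
      rw [e1, e2]
    rw [Fintype.sum_prod_type]
    refine le_trans (le_of_eq ?_) (round_le P hP s b hρ0 hρ
      (fun l => pt (fun k => (h k).1) u i (x l)) (fun l => pt (fun k => (h k).2) u i (x l))
      (fun l l' hl => hx ((pt _ u i).injective hl)) (fun l l' hl => hx ((pt _ u i).injective hl)))
    apply sum_congr rfl
    intro A _
    apply sum_congr rfl
    intro B _
    rw [hw]
    exact if_congr (h1 (A, B)) rfl rfl
  have hmain := chain_count w hw0 hw1 (1, 1) E hloc hc hE N D hD ((D.card + 1) / 2)
    (fun h => 8 * (((univ : Finset (Fin s)) ×ˢ D).filter fun p =>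
      qp (fun k => (ext (1, 1) h k).1) u (x p.1) p.2 ≠
        qp (fun k => (ext (1, 1) h k).2) u (x p.1) p.2).card ≤ 3 * (s * D.card)) (by
    intro h hh
    obtain ⟨G, hG⟩ : ∃ G, G = D.filter fun v => ¬ E v (ext (1, 1) h) := ⟨_, rfl⟩
    obtain ⟨H, hH⟩ : ∃ H, H = D.filter fun v => E v (ext (1, 1) h) := ⟨_, rfl⟩
    have hGH : H.card + G.card = D.card := by
      rw [hG, hH]
      exact card_filter_add_card_filter_not _
    have h2 : G.card * (3 * s + 1) ≤ 4 * (((univ : Finset (Fin s)) ×ˢ D).filter fun p =>
        qp (fun k => (ext (1, 1) h k).1) u (x p.1) p.2 ≠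
        qp (fun k => (ext (1, 1) h k).2) u (x p.1) p.2).card := by
      have h3 : (((univ : Finset (Fin s)) ×ˢ D).filter fun p =>
          qp (fun k => (ext (1, 1) h k).1) u (x p.1) p.2 ≠
          qp (fun k => (ext (1, 1) h k).2) u (x p.1) p.2).card =
          ∑ v ∈ D, (univ.filter fun l : Fin s => qp (fun k => (ext (1, 1) h k).1) u (x l) v ≠
          qp (fun k => (ext (1, 1) h k).2) u (x l) v).card := by
        rw [card_filter, sum_product_right]
        apply sum_congr rfl
        intro v _
        rw [card_filter]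
      rw [h3, mul_sum]
      calc G.card * (3 * s + 1) = ∑ _v ∈ G, (3 * s + 1) := by rw [sum_const, smul_eq_mul]
        _ ≤ ∑ v ∈ G, 4 * (univ.filter fun l : Fin s =>
            qp (fun k => (ext (1, 1) h k).1) u (x l) v ≠
            qp (fun k => (ext (1, 1) h k).2) u (x l) v).card := by
            apply sum_le_sum
            intro v hv
            rw [hG, mem_filter, hEd, not_le] at hv
            have h4 := card_filter_add_card_filter_not (s := (univ : Finset (Fin s)))
              (fun l => qp (fun k => (ext (1, 1) h k).1) u (x l) v =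
                qp (fun k => (ext (1, 1) h k).2) u (x l) v)
            rw [card_univ, Fintype.card_fin] at h4
            have h5 := hv.2
            simp only [ne_eq]
            omega
        _ ≤ _ := by
            apply sum_le_sum_of_subset
            rw [hG]
            exact filter_subset _ _
    have h3 : (D.card + 1) / 2 ≤ H.card := by
      by_contra hcon
      push Not at hcon
      have h4 : D.card ≤ 2 * G.card := by omega
      have h4' : 0 < G.card := by omega
      have h5 : D.card * (3 * s) ≤ 2 * G.card * (3 * s) := Nat.mul_le_mul_right _ h4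
      have h6 : 3 * (s * D.card) = D.card * (3 * s) := by ring
      rw [h6] at hh
      have h7 : 2 * G.card * (3 * s) + 2 * G.card = 2 * (G.card * (3 * s + 1)) := by ring
      omega
    obtain ⟨R, hR1, hR2⟩ := exists_subset_card_eq h3
    refine ⟨R, hR1.trans (hH ▸ filter_subset _ _), hR2, fun i hi => ?_⟩
    have := hR1 hi
    rw [hH, mem_filter] at this
    exact this.2)
  refine le_trans (le_of_eq ?_) hmain
  rw [← (Equiv.arrowProdEquivProdArrow (Fin N) (fun _ => Equiv.Perm X)
    (fun _ => Equiv.Perm X)).symm.sum_comp, Fintype.sum_prod_type]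
  apply sum_congr rfl
  intro A _
  apply sum_congr rfl
  intro B _
  have e1 : (fun k => (ext ((1 : Equiv.Perm X), (1 : Equiv.Perm X))
      ((Equiv.arrowProdEquivProdArrow (Fin N) (fun _ => Equiv.Perm X)
        (fun _ => Equiv.Perm X)).symm (A, B)) k).1) = ext 1 A := by
    funext k
    unfold ext
    split_ifs <;> rfl
  have e2 : (fun k => (ext ((1 : Equiv.Perm X), (1 : Equiv.Perm X))
      ((Equiv.arrowProdEquivProdArrow (Fin N) (fun _ => Equiv.Perm X)
        (fun _ => Equiv.Perm X)).symm (A, B)) k).2) = ext 1 B := by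
    funext k
    unfold ext
    split_ifs <;> rfl
  rw [e1, e2]
  congr 1
  simp only [hw]
  rw [prod_mul_distrib]
  rfl

end split

end Pool.Agent.Helper7.FS
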