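import Pool.Agent.Helper7.FS.SplitA
import Pool.Agent.Helper1.TP.Defs

/-!
# SPLIT-A in the form of the final step (MP_75608d_al)
-/

set_option autoImplicit false
set_option linter.unusedSectionVars false

namespace Pool.Agent.Helper7.FS

open Finset Pool.Agent.Helper35.MP Pool.Agent.Helper13.FS
open Pool.Agent.Helper4.FS (World Lt Stp prog)
open Pool.Agent.Helper1.TP (hp nl nsplit)

variable {q n s : ℕ}

/-- the permutation of a slot -/
def slp (y : World q n) (g : ℕ → Option (Lt q)) (v : ℕ) : Equiv.Perm (Fin n) :=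
  match g v with
  | none => 1
  | some m => Pool.Agent.Helper4.FS.lp y m

theorem hp_even (y : World q n) (a : ℕ → Equiv.Perm (Fin n)) (g : ℕ → Option (Lt q))
    (p : Fin n) : ∀ v : ℕ, hp y a g (2 * v) p = pt a (slp y g) v p
  | 0 => rfl
  | v + 1 => by
    show Pool.Agent.Helper4.FS.pos (prog a g) y 0 p (2 * v + 2) =
      slp y g v (a v (pt a (slp y g) v p))
    have h1 : Pool.Agent.Helper4.FS.pos (prog a g) y 0 p (2 * v) = pt a (slp y g) v p :=
      hp_even y a g p v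
    have h2 := Pool.Agent.Helper4.FS.pos_even_step a g y p v
    rw [h1] at h2
    rcases hg : g v with _ | m
    · rw [Pool.Agent.Helper4.FS.pos_odd_none hg, h2]
      unfold slp
      rw [hg]
      rfl
    · rw [Pool.Agent.Helper4.FS.pos_odd_some hg, h2]
      unfold slp
      rw [hg]

theorem hp_odd (y : World q n) (a : ℕ → Equiv.Perm (Fin n)) (g : ℕ → Option (Lt q))
    (p : Fin n) (v : ℕ) : hp y a g (2 * v + 1) p = qp a (slp y g) p v := by
  unfold qp
  rw [← hp_even]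
  exact Pool.Agent.Helper4.FS.pos_even_step a g y p v

theorem nsplit_eq (y : World q n) (a b : ℕ → Equiv.Perm (Fin n)) (g : ℕ → Option (Lt q)) (N : ℕ)
    (x : Fin s → Fin n) : nsplit y a b g N x =
      (((univ : Finset (Fin s)) ×ˢ ((range N).filter fun v => g v ≠ none)).filter fun p =>
          qp a (slp y g) (x p.1) p.2 ≠ qp b (slp y g) (x p.1) p.2).card := by
  unfold nsplit
  congr 1
  ext p
  simp only [mem_filter, mem_product, mem_univ, true_and, hp_odd]
  tauto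

/-- only the first `N` words matter -/
theorem nsplit_congr (y : World q n) {a a' b b' : ℕ → Equiv.Perm (Fin n)}
    (g : ℕ → Option (Lt q)) (N : ℕ) (x : Fin s → Fin n) (ha : ∀ k < N, a k = a' k)
    (hb : ∀ k < N, b k = b' k) : nsplit y a b g N x = nsplit y a' b' g N x := by
  rw [nsplit_eq, nsplit_eq]
  congr 1
  apply filter_congr
  intro p hp
  rw [mem_product, mem_filter, mem_range] at hp
  have h1 := hp.2.1
  rw [qp_congr (fun k hk => ha k (by omega)), qp_congr (fun k hk => hb k (by omega))]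

/-- **SPA** (SPLIT-A): for independent words `A`, `B` with the law `μ` at most `3 / 8` of the pairs
(token, round with a fresh letter) are split with probability at most
`2 ^ nl * (2 ^ s * ρ) ^ ⌈nl / 2⌉` -/
theorem spa (μ : Equiv.Perm (Fin n) → ℝ) (hμ : ∀ A, 0 ≤ μ A) (hμ1 : ∑ A, μ A = 1) {b : ℕ}
    (hb : 4 * b ≤ s + 3) {ρ : ℝ} (hρ0 : 0 ≤ ρ)
    (hρ : ∀ x x' : Fin b ↪ Fin n,
      ∑ A, ∑ B, (if ∀ j, A (x j) = B (x' j) then μ A * μ B else 0) ≤ ρ)
    (y : World q n) (g : ℕ → Option (Lt q)) (x : Fin s → Fin n) (hx : Function.Injective x)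
    (N : ℕ) :
    ∑ A : Fin N → Equiv.Perm (Fin n), ∑ B : Fin N → Equiv.Perm (Fin n),
      (if 8 * nsplit y (ext 1 A) (ext 1 B) g N x ≤ 3 * (s * nl g N) then
        (∏ k, μ (A k)) * ∏ k, μ (B k) else 0) ≤
      2 ^ nl g N * (2 ^ s * ρ) ^ ((nl g N + 1) / 2) := by
  refine le_trans (le_of_eq ?_) (split_le μ hμ hμ1 hb hρ0 hρ x hx (slp y g) N
    ((range N).filter fun v => g v ≠ none) (filter_subset _ _))
  apply sum_congr rfl
  intro A _
  apply sum_congr rfl
  intro B _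
  rw [nsplit_eq]
  rfl

/-- the same with powers of `2 ^ s * ρ ≤ 1` and `nl ≤ N`, real exponents -/
theorem spa' (μ : Equiv.Perm (Fin n) → ℝ) (hμ : ∀ A, 0 ≤ μ A) (hμ1 : ∑ A, μ A = 1) {b : ℕ}
    (hb : 4 * b ≤ s + 3) {ρ : ℝ} (hρ0 : 0 ≤ ρ) (hρ1 : 2 ^ s * ρ ≤ 1)
    (hρ : ∀ x x' : Fin b ↪ Fin n,
      ∑ A, ∑ B, (if ∀ j, A (x j) = B (x' j) then μ A * μ B else 0) ≤ ρ)
    (y : World q n) (g : ℕ → Option (Lt q)) (x : Fin s → Fin n) (hx : Function.Injective x)
    (N : ℕ) {N1 : ℕ} (hN1 : N1 ≤ nl g N) :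
    ∑ A : Fin N → Equiv.Perm (Fin n), ∑ B : Fin N → Equiv.Perm (Fin n),
      (if 8 * nsplit y (ext 1 A) (ext 1 B) g N x ≤ 3 * (s * nl g N) then
        (∏ k, μ (A k)) * ∏ k, μ (B k) else 0) ≤
      2 ^ N * (2 ^ s * ρ) ^ ((N1 + 1) / 2) := by
  refine (spa μ hμ hμ1 hb hρ0 hρ y g x hx N).trans ?_
  have h0 : 0 ≤ 2 ^ s * ρ := by positivity
  have h1 : nl g N ≤ N := by
    unfold nl
    exact (card_filter_le _ _).trans (le_of_eq (card_range N))
  apply mul_le_mul
  · exact pow_le_pow_right₀ (by norm_num) h1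
  · exact pow_le_pow_of_le_one h0 hρ1 (by omega)
  · positivity
  · positivity

/-- the hypothesis of `spa` from return probabilities -/
theorem rho_of_ret {Lam : Type*} [Fintype Lam] [DecidableEq Lam] (L : Letters (Fin n) Lam) {θ : ℝ}
    {S : Lam → ℝ} (hS : Wt L θ S) (t b : ℕ) {ρ : ℝ} (hρ : ∀ x, ret (tup L b) S t x ≤ ρ) :
    ∀ x x' : Fin b ↪ Fin n,
      ∑ A, ∑ B, (if ∀ j, A (x j) = B (x' j) then law L S t A * law L S t B else 0) ≤ ρ :=
  law_meet_le L hS t b hρ

end Pool.Agent.Helper7.FS
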